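import Pool.Agent.H2.GEN.LabAbs

/-!
# Chains of universal degree at one point of a class: small gradients of the first coordinates

`lab2_famp`, `lab2_absp`: `lab2_famq`, `lab2_abs` with the exponents of the gradients of the first
`n'` coordinates apart (a copy of the proofs of helper2 and helper63).
-/

set_option autoImplicit false

namespace Pool.JPN

open Finset MvPolynomial
open Pool.Agent.H49.Ent Pool.Agent.H32.Dense Pool.STK Pool.KS3 Pool.KA Pool.KSAT Pool.PB Pool.GEN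
open Pool.K2S Pool.TRC Pool.S6C Pool.STAT Pool.STAT.CLO
open Pool.LBT (ThrOf)
open Pool.CHT (chsys bet Pts Ptq Csl TmH jattq bas_ev MCh MCq fl_add big tau)
open Pool.TRC31 (timeF)

/-- **Chains of universal degree at one point**, for one family: `eN` is the exponent of the last
labels, `eP` the one of the first `n'` coordinates. -/
theorem lab2_famp (n n' S : ℕ) (hn' : n' ≤ n) (hS : 1 ≤ S) : ∃ D c : ℕ, 1 ≤ c ∧ ∀ K N : ℕ, ∃ C : ℕ,
    ∀ (d J : ℕ) (F : Fam d J) (e : ℕ → Fin d) (al om : ℕ → ℕ) (ee eN eP : ℕ)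
    (g : ℕ → ℕ → ℕ)
    (u₀ h u s : ℕ) (ℓ : ℕ → ℕ) (L : ℕ) (A : F.Ω → Prop)
    (G : ℕ → PtT F → ℕ → MvPolynomial (Option (Fin d)) ℝ)
    (H : ℕ → LnT F → ℕ → MvPolynomial (Option (Fin d)) ℝ) (θ : ℝ),
    Jat F e n K (N + 1) al om ee g u₀ A G H →
    ChOK F e n (fun _ => K) (al N) (om N) eN (g N) A (G N) (H N) →
    ChOK F e n' (fun _ => K) (al N) (om N) eP (g N) A (G N) (H N) → Inj e n → al N ≤ J → (∀ k ≤ N, om k ≤ al k) →
    (∀ k < N, om k ≤ om (k + 1) ∧ om (k + 1) ≤ om k + h) →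
    (∀ k < N, al k ≤ al (k + 1) ∧ al (k + 1) ≤ al k + h) →
    (∀ k ≤ N, ∀ k' ≤ k, ∀ l < n, g k' l + al k ≤ g k l + al k' + u ∧
      g k' l + om k ≤ g k l + om k' + u ∧ g k' l ≤ g k l) →
    (∀ k ≤ N, ∀ l < n, al k ≤ g k l + u) →
    (∀ k ≤ N, ∀ l < n, g N l + S * al k ≤ g k l + S * al N + u ∧
      g N l + S * om k ≤ g k l + S * om N + u) →
    (∀ l < n, g N l + S * al 0 ≤ S * al N + u ∧ g N l + S * om 0 ≤ S * om N + u) →
    (∀ k ≤ N, ∀ l < n, C ≤ g k l) → u₀ + C ≤ u → 0 < Pe F.p A → 0 ≤ θ →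
    (∀ k ≤ N, TimeS F A (om k) (J - om N) θ) → C * (θ + 1) ≤ (J - om N : ℕ) →
    (c : ℝ) * (h + u) + C * (θ + 1) ≤ s →
    (∀ i < n, ℓ i ≤ g N i) → (∀ i < n, ℓ i ≤ L) → c * (s + 1) ≤ ℓ 0 →
    (∀ i, i + 1 < n → c * (ℓ i + s + 1) ≤ ℓ (i + 1)) →
    ∃ (B : F.Ω → Prop) (Gt : PtT F → ℕ → PN) (R : LnT F → ℕ → PN), (∀ ω, B ω → A ω) ∧
      Pe F.p A ≤ 2 * Pe F.p B ∧
      ChOK F e n (fun _ => D) (al N) (om N) (eN + c * (L + s + 1) + C) (fun i => g N i - ℓ i) B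
        (fun y i => tb e (Gt y (i + 1))) (fun l i => tb e (R l (i + 1))) ∧
      ChOK F e n' (fun _ => D) (al N) (om N) (eP + c * (L + s + 1) + C) (fun i => g N i - ℓ i) B
        (fun y i => tb e (Gt y (i + 1))) (fun l i => tb e (R l (i + 1))) := by
  obtain ⟨c₁, htrc⟩ := trc_fam n S hS
  obtain ⟨D, hD⟩ : ∃ D, D = (S + 1) ^ (n + 1) ^ 2 := ⟨_, rfl⟩
  rw [← hD] at htrc
  obtain ⟨c₂, hc₂, hpack⟩ := pack n D
  obtain ⟨c₃, hc₃, hpack'⟩ := pack n' D
  refine ⟨D, max c₁ (max c₂ c₃), le_trans hc₂ ((le_max_left _ _).trans (le_max_right _ _)),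
    fun K N => ?_⟩
  obtain ⟨s₀, hs₀, hlvl⟩ := lvl_of n K
  obtain ⟨C₁, hC₁⟩ := htrc K (N + 1) s₀
  obtain ⟨s₁, hs₁⟩ := hpack K
  obtain ⟨s₂, hs₂⟩ := hpack' K
  obtain ⟨C, hC⟩ : ∃ C, C = C₁ + s₁ + s₂ + s₀ + 1 := ⟨_, rfl⟩
  have hCC₁ : (C₁ : ℝ) ≤ C := by
    rw [hC]
    push_cast
    have : (0 : ℝ) ≤ s₁ := Nat.cast_nonneg _
    have : (0 : ℝ) ≤ s₂ := Nat.cast_nonneg _
    have : (0 : ℝ) ≤ s₀ := Nat.cast_nonneg _
    linarith
  refine ⟨C, ?_⟩
  intro d J F e al om ee eN eP g u₀ h u s ℓ L A G H θ hJat hchN hchP hinj haJ hoa hom hal hlaw hag hsl hsl0 hCg hu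
    hA hθ htm hCJ hs hℓg hℓL hℓ0 hℓs
  have hmA : ∀ k j, k ≤ j → j ≤ N → al k ≤ al j := by
    intro k j hkj
    induction j with
    | zero =>
      intro _
      have : k = 0 := by omega
      rw [this]
    | succ j ih =>
      intro hj
      rcases Nat.lt_or_ge k (j + 1) with h1 | h1
      · exact (ih (by omega) (by omega)).trans (hal j (by omega)).1
      · have : k = j + 1 := by omega
        rw [this]
  have haJ' : ∀ k ≤ N, al k ≤ J := fun k hk => (hmA k N hk le_rfl).trans haJ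
  have hL := hlvl d J (N + 1) F e al om ee g u₀ h u (al 0) (om 0) A G H hJat hinj
    (fun k hk => haJ' k (by omega)) (haJ' 0 (Nat.zero_le _)) (hoa 0 (Nat.zero_le _))
    (fun k hk => hoa k (by omega)) (fun k hk => (hom k (by omega)).1)
    (fun _ => ⟨le_rfl, le_rfl, by omega⟩) (fun k hk => hal k (by omega))
    (fun k hk k' hk' l hl => ⟨(hlaw k (by omega) k' hk' l hl).1,
      (hlaw k (by omega) k' hk' l hl).2.2⟩)
    (fun k hk l hl => by
      have := hag k (by omega) l hl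
      omega) (by omega)
  have hw : wtop (N + 1) (om N) (shl (om 0) om) = shl (om 0) om := by
    funext k
    unfold wtop
    split_ifs with hk
    · rw [hk]
      rfl
    · rfl
  have hTms : Tms n S (N + 1) (shl (om 0) om) (wtop (N + 1) (om N) (shl (om 0) om)) (jg g) h u := by
    rw [hw]
    refine ⟨?_, ?_, ?_, ?_⟩
    · rintro (_ | k) hk
      · exact ⟨le_rfl, Nat.le_add_right _ _⟩
      · exact hom k (by omega)
    · rintro (_ | k) hk (_ | k') hk' l h1 h2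
      · show 0 + om 0 ≤ 0 + om 0 + u
        omega
      · omega
      · show 0 + om k ≤ g k (l - 1) + om 0 + u
        have h3 := hag k (by omega) (l - 1) (by omega)
        have h4 := hoa k (by omega)
        omega
      · exact (hlaw k (by omega) k' (by omega) (l - 1) (by omega)).2.1
    · rintro (_ | k) hk l h1 h2
      · show g N (l - 1) + S * om 0 ≤ 0 + S * om N + u
        have := (hsl0 (l - 1) (by omega)).2
        omega
      · exact (hsl k (by omega) (l - 1) (by omega)).2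
    · intro k _
      rw [Nat.add_comm]
  have hSlp : Pool.TRC.Slp n S (shl (al 0) al) (jg g) u (N + 1) := by
    rintro (_ | k) hk l h1 h2
    · show g N (l - 1) + S * al 0 ≤ 0 + S * al N + u
      have := (hsl0 (l - 1) (by omega)).1
      omega
    · exact (hsl k (by omega) (l - 1) (by omega)).1
  have hs' : ((c₁ : ℕ) : ℝ) * (h + u + (0 : ℕ)) + C₁ * (θ + 1) ≤ s := by
    refine le_trans ?_ hs
    have e1 : (c₁ : ℝ) ≤ (max c₁ (max c₂ c₃) : ℕ) := by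
      exact_mod_cast le_max_left c₁ (max c₂ c₃)
    have e2 : (0 : ℝ) ≤ (h : ℝ) + u := by positivity
    have e3 := mul_le_mul_of_nonneg_right e1 e2
    have e4 := mul_le_mul_of_nonneg_right hCC₁ (by linarith : 0 ≤ θ + 1)
    push_cast at e3 ⊢
    linarith
  obtain ⟨B, G', H', R, k1, k2, k3, k4, k5, k6, k7, k8, -⟩ := hC₁ d J F (fun i => e (i - 1)) (al N)
    (om N) 0 0 (shl (al 0) al) (shl (om 0) om) (shl (om 0) om) (jg g) (fun _ => jg g (N + 1)) h u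
    0 s (fun _ => N + 1) A (jG F e n (N + 1) (al 0) al G) (jH F e n (N + 1) H) θ hL
    (fun k _ => ⟨le_rfl, hSlp, by
      show al N ≤ al N + k * 0
      omega⟩) rfl (by
      show al N + 0 * 0 ≤ J
      omega) hTms le_rfl (hoa N le_rfl) (by
      rintro (_ | k) hk1 hk2 i hi1 hi2
      · omega
      · show s₀ + 1 ≤ g k (i - 1)
        have := hCg k (by omega) (i - 1) (by omega)
        omega) hA hθ (by
      rintro (_ | k) hk
      · exact htm 0 (Nat.zero_le _)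
      · exact htm k (by omega)) (by
      refine le_trans (mul_le_mul_of_nonneg_right hCC₁ (by linarith)) hCJ)
    (fun k _ i _ _ => ⟨le_rfl, by omega⟩) hs'
  have hRaw := k3 0 le_rfl
  have ea : al N + 0 * 0 = al N := by omega
  rw [ea] at hRaw
  have hg0 : CDat.g0 (al N) 0 (fun _ => jg g (N + 1)) 0 = gg (al N) (g N) := by
    funext i
    unfold CDat.g0 gg
    split_ifs
    · exact ea
    · rfl
  have hnr : ∀ ω, B ω → ∀ i, 1 ≤ i → i ≤ n → ∀ b : ℕ → ℝ,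
      Bx (gg (al N) (g N)) (Gs e n (al N) (G N) (ptr F J ω)) i b →
      |eval b (Gs e n (al N) (G N) (ptr F J ω) i) - eval b (G' 0 (ptr F J ω) i)| ≤
        2 ^ s / 2 ^ g N (i - 1) := by
    intro ω hω i hi1 hi b hb
    have h1 := k8 0 le_rfl ω hω i hi1 hi b
    have h2 : jG F e n (N + 1) (al 0) al G (N + 1) = Gs e n (al N) (G N) :=
      jG_succ (Nat.lt_succ_self N)
    rw [h2] at h1
    refine h1 ?_
    rw [gg_tus] at hb
    exact hb
  have hcc : c₂ ≤ max c₁ (max c₂ c₃) := (le_max_left _ _).trans (le_max_right _ _)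
  have hcc' : c₃ ≤ max c₁ (max c₂ c₃) := (le_max_right _ _).trans (le_max_right _ _)
  have hGs' : ∀ i ≤ n', ∀ y, Gs e n' (al N) (G N) y i = Gs e n (al N) (G N) y i := by
    intro i hi y
    unfold Gs
    rcases i with _ | i
    · rw [sy_zero, sy_zero]
    · rw [sy_succ (by omega), sy_succ (by omega)]
  have hBx' : ∀ {y : PtT F} {i : ℕ} {b : ℕ → ℝ}, i ≤ n' →
      Bx (gg (al N) (g N)) (Gs e n' (al N) (G N) y) i b →
      Bx (gg (al N) (g N)) (Gs e n (al N) (G N) y) i b := by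
    intro y i b hi hb j hj
    have h1 := hb j hj
    rwa [hGs' j (by omega)] at h1
  refine ⟨B, G' 0, R, k1, k2, ?_, ?_⟩
  · refine (hs₁ d J (al N) (om N) (om N) eN s F e (fun _ => K) (g N) ℓ L B (G N) (H N) (G' 0) R
      haJ hinj (fun _ _ => le_rfl) (hchN.sub k1) hRaw.G_tri
      hRaw.G_deg hRaw.G_zero k5 k6 hnr (fun ω hω i hi1 hi => ?_) (fun ω hω i hi1 hi b hb => ?_)
      hℓg hℓL ?_ (fun i hi => ?_)).mono le_rfl (fun _ => le_rfl) le_rfl ?_
    · exact k4 0 le_rfl ω hω i hi1 hi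
    · refine k7 ω hω i hi1 hi b ?_
      rw [hg0]
      exact hb
    · exact (Nat.mul_le_mul_right _ hcc).trans hℓ0
    · exact (Nat.mul_le_mul_right _ hcc).trans (hℓs i hi)
    · have h1 := Nat.mul_le_mul_right (L + s + 1) hcc
      omega
  · refine (hs₂ d J (al N) (om N) (om N) eP s F e (fun _ => K) (g N) ℓ L B (G N) (H N) (G' 0) R
      haJ (fun i hi j hj h => hinj i (by omega) j (by omega) h) (fun _ _ => le_rfl)
      (hchP.sub k1) hRaw.G_tri
      hRaw.G_deg hRaw.G_zero k5 k6 (fun ω hω i hi1 hi b hb => ?_) (fun ω hω i hi1 hi => ?_)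
      (fun ω hω i hi1 hi b hb => ?_)
      (fun i hi => hℓg i (by omega)) (fun i hi => hℓL i (by omega)) ?_
      (fun i hi => ?_)).mono le_rfl (fun _ => le_rfl) le_rfl ?_
    · rw [hGs' i hi]
      exact hnr ω hω i hi1 (by omega) b (hBx' hi hb)
    · exact k4 0 le_rfl ω hω i hi1 (by omega)
    · refine k7 ω hω i hi1 (by omega) b ?_
      rw [hg0]
      exact hb
    · exact (Nat.mul_le_mul_right _ hcc').trans hℓ0
    · exact (Nat.mul_le_mul_right _ hcc').trans (hℓs i (by omega))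
    · have h1 := Nat.mul_le_mul_right (L + s + 1) hcc'
      omega


/-- Only the first precisions matter. -/
theorem _root_.Pool.GEN.ChOK.cg {m J : ℕ} {F : Fam m J} {c : ℕ → Fin m} {r : ℕ} {K : ℕ → ℕ}
    {a w e : ℕ} {g g' : ℕ → ℕ} {A : F.Ω → Prop}
    {G : PtT F → ℕ → MvPolynomial (Option (Fin m)) ℝ}
    {H : LnT F → ℕ → MvPolynomial (Option (Fin m)) ℝ} (h : ChOK F c r K a w e g A G H)
    (hg : ∀ l < r, g l = g' l) : ChOK F c r K a w e g' A G H := by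
  have hb : ∀ {y : PtT F} {t : ℝ} {i : ℕ} {b : Option (Fin m) → ℝ}, i < r →
      NBx c (G y) g' a t i b → NBx c (G y) g a t i b := by
    intro y t i b hi hb
    refine ⟨hb.1, fun l hl => ?_⟩
    have h1 := hb.2 l hl
    rwa [← hg l (by omega)] at h1
  refine ⟨h.degG, h.degH, h.depG, h.depH, fun ω hω i hi => ?_, fun ω hω i hi b hbx => ?_,
    fun ω hω i hi b hbx l hl => ?_⟩
  · rw [← hg i hi]
    exact h.pos ω hω i hi
  · rw [← hg i hi]
    exact h.agr ω hω i hi b (hb hi hbx)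
  · have e1 : nlp g' l i = nlp g l i := by
      unfold nlp
      rw [← hg i hi, Finset.sup_congr rfl fun j hj => (hg j (by
        have := (Finset.mem_Icc.1 hj).2
        omega)).symm]
    rw [e1]
    exact h.lip ω hω i hi b (hb hi hbx) l hl

/-- **Chains of universal degree at one point of a class**, with abstract numbers: `b κ l` is the
precision of the label `l` at the point `(a - κ, w - κ)`, `Ee κ` the exponent of the gradients,
`ep` the one of the first `n'` coordinates at the point `(a, w)`. -/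
theorem lab2_absp (n n' S : ℕ) (hn : 1 ≤ n) (hn' : n' ≤ n) (hS : 1 ≤ S) : ∃ (D : ℕ) (C : ℝ), 1 ≤ C ∧
    ∀ {m : ℕ} {Sc : PCl m} {c : ℕ → Fin m} {a w v ε ep : ℝ} {b : ℝ → ℕ → ℝ} {Ee : ℝ → ℝ}
    {Q : Set ℝ}, TmH Sc → Set.InjOn c (Set.Iio n) → 0 < v → v < w → w ≤ a → a < 1 → 0 ≤ ε →
    (0 : ℝ) ∈ Q → (∀ x y : ℝ, 0 ≤ x → x < y → y ≤ w - v → ∃ κ ∈ Q, x < κ ∧ κ < y) →
    (∀ κ ∈ Q, 0 ≤ κ → κ ≤ w - v → ∀ l < n, a - κ ≤ b κ l ∧ b κ l ≤ 1 ∧
      b 0 l ≤ b κ l + S * κ + ε) →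
    (∀ κ ∈ Q, ∀ κ' ∈ Q, 0 ≤ κ' → κ' ≤ κ → κ ≤ w - v → ∀ l < n, b κ l + (κ - κ') ≤ b κ' l) →
    (∀ (N : ℕ) (κ : ℕ → ℝ), (∀ k < N, κ k ∈ Q ∧ 0 ≤ κ k ∧ κ k ≤ w - v) → ∀ φ : ℝ, 0 < φ →
      ∃ (K : ℕ) (d δ : ℕ → ℝ) (K₁ : ℝ), 0 < K₁ ∧ (∀ l < n, 0 < d l ∧ d l ≤ φ ∧ δ l ≤ φ) ∧
      Bas Sc (fun J F A => ∃ (B : F.Ω → Prop)
        (G : ℕ → PtT F → ℕ → MvPolynomial (Option (Fin m)) ℝ)
        (H : ℕ → LnT F → ℕ → MvPolynomial (Option (Fin m)) ℝ), Sub B A ∧
        Pe F.p A ≤ K₁ * Pe F.p B ∧ MCq F c n (fun _ => K) N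
          (fun k k' => a - κ k ≤ a - κ k' ∧ w - κ k ≤ w - κ k')
          (fun k => ⌊(a - κ k) * J⌋₊) (fun k => ⌊(w - κ k) * J⌋₊) (fun k => ⌊Ee (κ k) * J⌋₊)
          (fun k l => ⌊(b (κ k) l - d l) * J⌋₊) (fun l => ⌊δ l * J⌋₊) B G H ∧
        ∀ k < N, κ k = 0 → ChOK F c n' (fun _ => K) ⌊(a - κ k) * J⌋₊ ⌊(w - κ k) * J⌋₊ ⌊ep * J⌋₊
          (fun l => ⌊(b (κ k) l - d l) * J⌋₊) B (G k) (H k))) →
    2 ≤ S * (w - v) → 0 ≤ Ee 0 → 0 ≤ ep →
    ∀ de : ℕ → ℝ, 0 < de 0 → C * ε < de 0 → (∀ l, l + 1 < n → C * de l < de (l + 1)) →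
    (∀ l < n, de l < a) →
    ∃ K₁ : ℝ, 0 < K₁ ∧ Bas Sc (fun J F A => ∃ (B : F.Ω → Prop)
      (G : PtT F → ℕ → MvPolynomial (Option (Fin m)) ℝ)
      (H : LnT F → ℕ → MvPolynomial (Option (Fin m)) ℝ), Sub B A ∧
      Pe F.p A ≤ K₁ * Pe F.p B ∧
      ChOK F c n (fun _ => D) ⌊a * J⌋₊ ⌊w * J⌋₊ ⌊(Ee 0 + C * de (n - 1)) * J⌋₊
        (fun l => ⌊(b 0 l - de l) * J⌋₊) B G H ∧
      ChOK F c n' (fun _ => D) ⌊a * J⌋₊ ⌊w * J⌋₊ ⌊(ep + C * de (n - 1)) * J⌋₊
        (fun l => ⌊(b 0 l - de l) * J⌋₊) B G H) := by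
  classical
  obtain ⟨D, c₀, hc₀, hfam⟩ := lab2_famp n n' S hn' hS
  have hc1 : (1 : ℝ) ≤ c₀ := by exact_mod_cast hc₀
  refine ⟨D, 2 * c₀ ^ 2 + 2 * c₀, by nlinarith, ?_⟩
  intro m Sc c a w v ε ep bb Ee Q hSc hinj hv0 hvw hwa ha hε h0Q hQ hnum hmn hfm hSv he0 hep0 de
    hde0 hdeε hdes hdea
  obtain ⟨σ, x, φ, μ, hσ0, hσc, hx0, hσx, hφ0, hφ1, hφ2, hφ3, hμ0, hμ1⟩ :=
    lab_consts hc₀ hde0 hε hv0 hdeε
  obtain ⟨C, hC⟩ : ∃ C : ℝ, C = 2 * c₀ ^ 2 + 2 * c₀ := ⟨_, rfl⟩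
  rw [← hC] at hdeε hdes ⊢
  have hCc : (c₀ : ℝ) + 1 ≤ C := by
    rw [hC]
    nlinarith
  have hSr : (1 : ℝ) ≤ S := by exact_mod_cast hS
  have hdmono := de_mono (by linarith : (1 : ℝ) ≤ C) hde0 hdes
  have hd0 : ∀ l < n, de 0 ≤ de l := fun l hl => hdmono 0 l (Nat.zero_le _) hl
  have hdn : ∀ l < n, de l ≤ de (n - 1) := fun l hl => hdmono l (n - 1) (by omega) (by omega)
  -- the path
  obtain ⟨N, κ, hκ, hκN, hκ0, hκs⟩ := path_ex (Q := Q) (W := w - v) (μ := μ) (by linarith) hμ0 h0Q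
    hQ
  have hκm : ∀ k j, k ≤ j → j ≤ N → κ j ≤ κ k := by
    intro k j hkj
    induction j with
    | zero =>
      intro _
      have : k = 0 := by omega
      rw [this]
    | succ j ih =>
      intro hj
      rcases Nat.lt_or_ge k (j + 1) with h1 | h1
      · exact (hκs j (by omega)).1.trans (ih (by omega) (by omega))
      · have : k = j + 1 := by omega
        rw [this]
  have hκ' : ∀ k < N + 1, κ k ∈ Q ∧ 0 ≤ κ k ∧ κ k ≤ w - v := fun k hk => hκ k (by omega)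
  obtain ⟨b, hb⟩ : ∃ b : ℕ → ℕ → ℝ, b = fun k l => bb (κ k) l := ⟨_, rfl⟩
  have hbN : ∀ l, b N l = bb 0 l := by
    intro l
    rw [hb]
    show bb (κ N) l = _
    rw [hκN]
  have hbsl : ∀ k ≤ N, ∀ l < n, b N l ≤ b k l + S * κ k + ε := by
    intro k hk l hl
    obtain ⟨h1, h2, h3⟩ := hκ k hk
    rw [hbN, hb]
    exact (hnum _ h1 h2 h3 l hl).2.2
  have hw0 : ∀ k ≤ N, v ≤ w - κ k := fun k hk => by
    have := (hκ k hk).2.2
    linarith
  have ha1 : ∀ k ≤ N, a - κ k ≤ 1 := fun k hk => by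
    have := (hκ k hk).2.1
    linarith
  have hwk : ∀ k ≤ N, w - κ k ≤ a - κ k := fun k _ => by linarith
  have hblow : ∀ k ≤ N, ∀ l < n, a - κ k ≤ b k l := fun k hk l hl => by
    obtain ⟨h1, h2, h3⟩ := hκ k hk
    rw [hb]
    exact (hnum _ h1 h2 h3 l hl).1
  have hbup : ∀ k ≤ N, ∀ l < n, b k l ≤ 1 := fun k hk l hl => by
    obtain ⟨h1, h2, h3⟩ := hκ k hk
    rw [hb]
    exact (hnum _ h1 h2 h3 l hl).2.1
  have hbmono : ∀ k ≤ N, ∀ k' ≤ k, ∀ l < n, b k' l + (κ k' - κ k) ≤ b k l := by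
    intro k hk k' hk' l hl
    obtain ⟨h1, h2, h3⟩ := hκ k hk
    obtain ⟨h1', h2', h3'⟩ := hκ k' (hk'.trans hk)
    rw [hb]
    exact hmn _ h1' _ h1 h2 (hκm k' k hk' hk) h3' l hl
  -- the labels
  obtain ⟨Kx, d, δ, K₁, hK₁, hdδ, hbas⟩ := hfm (N + 1) κ hκ' φ hφ0
  obtain ⟨C', hfam⟩ := hfam Kx N
  have hC'0 : (0 : ℝ) ≤ C' := Nat.cast_nonneg C'
  have hw1 : w < 1 := hwa.trans_lt ha
  obtain ⟨η, hη0, hη1, hη2⟩ := eta_ex (C := C') hx0 (by linarith : 0 < 1 - w)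
  have htmb := bas_ev (hSc.2 η hη0) (inv_pos.2 hK₁)
  obtain ⟨J₁, hJ₁⟩ := big (C' + 1 : ℝ) (show 0 < v / 2 by positivity)
  obtain ⟨J₂, hJ₂⟩ := big (C' : ℝ) (show 0 < (1 - w) / 2 by linarith)
  obtain ⟨J₃, hJ₃⟩ := big ((c₀ : ℝ) * (S + 3 + C') + C' + 1) (show 0 < x / 2 by positivity)
  obtain ⟨J₄, hJ₄⟩ := big ((c₀ : ℝ) * 4 + C' + 2) (show 0 < de 0 / 4 by positivity)
  refine ⟨K₁ * 2, by positivity, ?_⟩
  have hposb : Bas Sc (fun _ F A => 0 < Pe F.p A) := ⟨1, one_pos, 0, fun J _ F A hA =>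
    hSc.1 1 J F A hA⟩
  refine Bas.mono (max (max J₁ J₂) (max J₃ J₄)) ((hbas.and htmb).and hposb) ?_
  rintro J hJ F A ⟨⟨⟨B, G', H', hBA, hPe, hM, hMp⟩, htm⟩, hA⟩
  have hJ0 : (0 : ℝ) ≤ J := Nat.cast_nonneg J
  have b1 := hJ₁ J (((le_max_left _ _).trans (le_max_left _ _)).trans hJ)
  have b2 := hJ₂ J (((le_max_right _ _).trans (le_max_left _ _)).trans hJ)
  have b3 := hJ₃ J (((le_max_left _ _).trans (le_max_right _ _)).trans hJ)
  have b4 := hJ₄ J (((le_max_right _ _).trans (le_max_right _ _)).trans hJ)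
  have b4' : (c₀ : ℝ) * 4 + 2 ≤ de 0 / 4 * J := by linarith
  have hB : 0 < Pe F.p B := by
    by_contra h
    push Not at h
    have := mul_nonpos_of_nonneg_of_nonpos hK₁.le h
    linarith
  have hTm := htm B hBA (by
    rw [inv_mul_le_iff₀ hK₁]
    exact hPe) hB
  have hMN := hM.ok N (Nat.lt_succ_self N)
  have hM' := hM.mch (e' := ∑ k ∈ range (N + 1), ⌊Ee (κ k) * J⌋₊) (fun k hk =>
    Finset.single_le_sum (f := fun k => ⌊Ee (κ k) * (J : ℝ)⌋₊) (fun _ _ => Nat.zero_le _)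
      (mem_range.2 hk))
  obtain ⟨al, hal⟩ : ∃ al : ℕ → ℕ, al = fun k => ⌊(a - κ k) * J⌋₊ := ⟨_, rfl⟩
  obtain ⟨om, hom⟩ : ∃ om : ℕ → ℕ, om = fun k => ⌊(w - κ k) * J⌋₊ := ⟨_, rfl⟩
  obtain ⟨g, hg⟩ : ∃ g : ℕ → ℕ → ℕ, g = fun k l => ⌊(b k l - d l) * J⌋₊ := ⟨_, rfl⟩
  have hJat := Pool.TRC.jat_of_mch hM' (N' := N + 1) (idx := fun k => k) (fun k hk => hk)
    (fun k' hk' k hk => by
      have := hκm k k' hk.le (by omega)
      exact ⟨by linarith, by linarith⟩) (u := ⌊φ * J⌋₊) (fun l hl =>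
      Nat.floor_le_floor (mul_le_mul_of_nonneg_right (hdδ l hl).2.2 hJ0))
  have hJat' : Pool.TRC.Jat F c n Kx (N + 1) al om (∑ k ∈ range (N + 1), ⌊Ee (κ k) * J⌋₊) g
      ⌊φ * J⌋₊ B G' H' := by
    rw [hal, hom, hg, hb]
    exact hJat
  have hchN : ChOK F c n (fun _ => Kx) (al N) (om N) ⌊Ee 0 * J⌋₊ (g N) B (G' N) (H' N) := by
    rw [hal, hom, hg, hb, ← hκN]
    exact hMN
  have hchP : ChOK F c n' (fun _ => Kx) (al N) (om N) ⌊ep * J⌋₊ (g N) B (G' N) (H' N) := by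
    rw [hal, hom, hg, hb]
    exact hMp N (Nat.lt_succ_self N) hκN
  have hd1 : ∀ l < n, d l ≤ φ := fun l hl => (hdδ l hl).2.1
  have hd2 : ∀ l < n, 0 < d l := fun l hl => (hdδ l hl).1
  have hbd : ∀ k ≤ N, ∀ l < n, v / 2 ≤ b k l - d l := by
    intro k hk l hl
    have h1 := hblow k hk l hl
    have h2 := hw0 k hk
    have h3 := hd1 l hl
    have h4 := hwk k hk
    linarith
  have fle : ∀ y : ℝ, 0 ≤ y → ((⌊y * J⌋₊ : ℕ) : ℝ) ≤ y * J := fun y hy =>
    Nat.floor_le (mul_nonneg hy hJ0)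
  have fge : ∀ y : ℝ, y * J < ((⌊y * J⌋₊ : ℕ) : ℝ) + 1 := fun y => Nat.lt_floor_add_one _
  obtain ⟨u, hu⟩ : ∃ u, u = ⌊(φ + ε) * J⌋₊ + S + 2 + C' := ⟨_, rfl⟩
  have hur : (φ + ε) * J ≤ ⌊(φ + ε) * J⌋₊ + 1 := (fge _).le
  have hεJ0 : 0 ≤ ε * (J : ℝ) := mul_nonneg hε hJ0
  have hSκ : (1 : ℝ) * J ≤ S * κ 0 * J := by
    refine mul_le_mul_of_nonneg_right ?_ hJ0
    have h1 := mul_le_mul_of_nonneg_left hκ0 (by linarith : (0 : ℝ) ≤ S)
    linarith
  have hu' : (u : ℝ) = (⌊(φ + ε) * J⌋₊ : ℕ) + S + 2 + C' := by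
    rw [hu]
    push_cast
    ring
  have hφJ : φ * (J : ℝ) ≤ (φ + ε) * J := mul_le_mul_of_nonneg_right (by linarith) hJ0
  have hεJ : ε * (J : ℝ) ≤ (φ + ε) * J := mul_le_mul_of_nonneg_right (by linarith) hJ0
  have hur1 : φ * (J : ℝ) + 1 ≤ u := by
    rw [hu']
    linarith
  have hur2 : ε * (J : ℝ) + S + 1 ≤ u := by
    rw [hu']
    linarith
  obtain ⟨ℓ, hℓ⟩ : ∃ ℓ : ℕ → ℕ, ℓ = fun l => g N l - ⌊(bb 0 l - de l) * J⌋₊ := ⟨_, rfl⟩
  have hdede : ∀ l < n, d l ≤ de l := fun l hl => by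
    have h1 := hd1 l hl
    have h2 := hd0 l hl
    linarith
  have hx1 : ∀ l < n, ⌊(bb 0 l - de l) * J⌋₊ ≤ g N l := by
    intro l hl
    rw [hg]
    show _ ≤ ⌊(b N l - d l) * J⌋₊
    rw [hbN]
    have := hdede l hl
    exact Nat.floor_le_floor (mul_le_mul_of_nonneg_right (by linarith) hJ0)
  have hba : ∀ l < n, a ≤ bb 0 l := fun l hl => by
    have h1 := hblow N le_rfl l hl
    rw [hbN, hκN] at h1
    linarith
  have hℓr : ∀ l < n, (de l - d l) * J - 1 ≤ ℓ l ∧ (ℓ l : ℝ) ≤ (de l - d l) * J + 1 := by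
    intro l hl
    have h1 : (ℓ l : ℝ) = (⌊(bb 0 l - d l) * J⌋₊ : ℕ) -
        (⌊(bb 0 l - de l) * J⌋₊ : ℕ) := by
      have h2 := hx1 l hl
      rw [hℓ]
      show ((g N l - ⌊(bb 0 l - de l) * J⌋₊ : ℕ) : ℝ) = _
      rw [Nat.cast_sub h2, hg]
      show ((⌊(b N l - d l) * J⌋₊ : ℕ) : ℝ) - _ = _
      rw [hbN]
    have h3 := fle (bb 0 l - d l) (by
      have := hbd N le_rfl l hl
      rw [hbN] at this
      linarith)
    have h4 := fge (bb 0 l - d l)
    have h5 := fle (bb 0 l - de l) (by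
      have := hdea l hl
      have := hba l hl
      linarith)
    have h6 := fge (bb 0 l - de l)
    rw [h1]
    constructor <;> linarith
  obtain ⟨L, hL⟩ : ∃ L, L = ⌊de (n - 1) * J + 1⌋₊ := ⟨_, rfl⟩
  have hden : 0 < de (n - 1) := hde0.trans_le (hd0 (n - 1) (by omega))
  have hLr : (L : ℝ) ≤ de (n - 1) * J + 1 := by
    rw [hL]
    exact Nat.floor_le (by positivity)
  obtain ⟨s, hs⟩ : ∃ s, s = ⌊σ * J⌋₊ := ⟨_, rfl⟩
  have hsr : (s : ℝ) ≤ σ * J := by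
    rw [hs]
    exact fle σ hσ0.le
  have hsr' : σ * J < s + 1 := by
    rw [hs]
    exact fge σ
  have haN : al N = ⌊a * J⌋₊ := by
    rw [hal]
    show ⌊(a - κ N) * J⌋₊ = _
    rw [hκN, sub_zero]
  have hoN : om N = ⌊w * J⌋₊ := by
    rw [hom]
    show ⌊(w - κ N) * J⌋₊ = _
    rw [hκN, sub_zero]
  have hoNJ : om N ≤ J := by
    rw [hoN]
    exact Pool.LBT.fl_le' hw1.le J
  have homm : ∀ k ≤ N, om k ≤ om N := by
    intro k hk
    rw [hom]
    refine Nat.floor_le_floor (mul_le_mul_of_nonneg_right ?_ hJ0)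
    have := hκm k N hk le_rfl
    linarith
  obtain ⟨B', Gt, R, k1, k2, k3, k4⟩ := hfam m J F c al om
    (∑ k ∈ range (N + 1), ⌊Ee (κ k) * J⌋₊) ⌊Ee 0 * J⌋₊ ⌊ep * J⌋₊ g ⌊φ * J⌋₊ (⌊μ * J⌋₊ + 1) u s ℓ L
    B G' H' (η * J) hJat' hchN hchP (fun i hi j hj h => hinj (Set.mem_Iio.2 hi) (Set.mem_Iio.2 hj) h)
    (by
      rw [haN]
      exact Pool.LBT.fl_le' ha.le J)
    (fun k hk => by
      rw [hom, hal]
      exact Nat.floor_le_floor (mul_le_mul_of_nonneg_right (hwk k hk) hJ0))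
    (fun k hk => by
      obtain ⟨h1, h2⟩ := hκs k hk
      rw [hom]
      refine ⟨Nat.floor_le_floor (mul_le_mul_of_nonneg_right (by linarith) hJ0), ?_⟩
      refine fl_add ?_
      have h3 := mul_le_mul_of_nonneg_right h2 hJ0
      linarith)
    (fun k hk => by
      obtain ⟨h1, h2⟩ := hκs k hk
      rw [hal]
      refine ⟨Nat.floor_le_floor (mul_le_mul_of_nonneg_right (by linarith) hJ0), ?_⟩
      refine fl_add ?_
      have h3 := mul_le_mul_of_nonneg_right h2 hJ0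
      linarith)
    (fun k hk k' hk' l hl => by
      have h1 := hbmono k hk k' hk' l hl
      have h2 := hbd k' (hk'.trans hk) l hl
      have h3 := hw0 k hk
      have h4 := hwk k hk
      have h5 := hκm k' k hk' hk
      have hu1 : 1 ≤ u := by rw [hu]; omega
      have h7 := mul_le_mul_of_nonneg_right h1 hJ0
      refine ⟨?_, ?_, ?_⟩
      · have h6 := fl2 (x := (b k' l - d l) * J) (y := (a - κ k) * J) (z := (b k l - d l) * J)
          (t := (a - κ k') * J) (mul_nonneg (by linarith) hJ0) (mul_nonneg (by linarith) hJ0)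
          (by linarith)
        rw [hg, hal]
        show ⌊(b k' l - d l) * J⌋₊ + ⌊(a - κ k) * J⌋₊ ≤ ⌊(b k l - d l) * J⌋₊ +
          ⌊(a - κ k') * J⌋₊ + u
        omega
      · have h6 := fl2 (x := (b k' l - d l) * J) (y := (w - κ k) * J) (z := (b k l - d l) * J)
          (t := (w - κ k') * J) (mul_nonneg (by linarith) hJ0) (mul_nonneg (by linarith) hJ0)
          (by linarith)
        rw [hg, hom]
        show ⌊(b k' l - d l) * J⌋₊ + ⌊(w - κ k) * J⌋₊ ≤ ⌊(b k l - d l) * J⌋₊ +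
          ⌊(w - κ k') * J⌋₊ + u
        omega
      · rw [hg]
        exact Nat.floor_le_floor (mul_le_mul_of_nonneg_right (by linarith) hJ0))
    (fun k hk l hl => by
      have h1 := mul_le_mul_of_nonneg_right (hblow k hk l hl) hJ0
      have h2 := mul_le_mul_of_nonneg_right (hd1 l hl) hJ0
      have h3 := hw0 k hk
      have h4 := hwk k hk
      rw [hal, hg]
      refine le_num (r := φ * J) (mul_nonneg (by linarith) hJ0) ?_ hur1
      linarith)
    (fun k hk l hl => by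
      have h1 := mul_le_mul_of_nonneg_right (hbsl k hk l hl) hJ0
      have h2 := hbd N le_rfl l hl
      have h3 := hw0 k hk
      have h4 := hwk k hk
      rw [hal, hom, hg]
      constructor
      · refine slp_num (r := ε * J) (mul_nonneg (by linarith) hJ0)
          (mul_nonneg (by linarith) hJ0) ?_ hur2
        rw [hκN]
        linarith
      · refine slp_num (r := ε * J) (mul_nonneg (by linarith) hJ0)
          (mul_nonneg (by linarith) hJ0) ?_ hur2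
        rw [hκN]
        linarith)
    (fun l hl => by
      have h1 := hbup N le_rfl l hl
      have h2 := hbd N le_rfl l hl
      have h3 := hd2 l hl
      have h4 := hw0 0 (Nat.zero_le _)
      have h5 := hwk 0 (Nat.zero_le _)
      have h10 : (b N l - d l) * J ≤ 1 * J := mul_le_mul_of_nonneg_right (by linarith) hJ0
      have h6 := hεJ0
      rw [hal, hom, hg]
      constructor
      · have h7 := slp_num (S := S) (u := u) (x := (b N l - d l) * J) (y := 0)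
          (A := (a - κ 0) * J) (B := (a - κ N) * J) (r := ε * J) (mul_nonneg (by linarith) hJ0)
          (mul_nonneg (by linarith) hJ0) (by
            rw [hκN]
            linarith) hur2
        rw [Nat.floor_zero, Nat.zero_add] at h7
        exact h7
      · have h7 := slp_num (S := S) (u := u) (x := (b N l - d l) * J) (y := 0)
          (A := (w - κ 0) * J) (B := (w - κ N) * J) (r := ε * J) (mul_nonneg (by linarith) hJ0)
          (mul_nonneg (by linarith) hJ0) (by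
            rw [hκN]
            linarith) hur2
        rw [Nat.floor_zero, Nat.zero_add] at h7
        exact h7)
    (fun k hk l hl => by
      have h1 := hbd k hk l hl
      have h2 := fge (b k l - d l)
      have h3 : v / 2 * J ≤ (b k l - d l) * J := mul_le_mul_of_nonneg_right h1 hJ0
      have h5 : ((C' : ℕ) : ℝ) < ((g k l + 1 : ℕ) : ℝ) := by
        rw [hg]
        push_cast
        linarith
      have h6 : C' < g k l + 1 := by exact_mod_cast h5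
      omega)
    (by
      have h1 : ⌊φ * J⌋₊ ≤ ⌊(φ + ε) * J⌋₊ := Nat.floor_le_floor hφJ
      omega)
    hB (by positivity)
    (fun k hk => by
      have h1 := homm k hk
      exact timeF hB hTm (by omega))
    (by
      rw [Nat.cast_sub hoNJ, hoN]
      have h1 := fle w (by linarith)
      have h2 : C' * (η * J) ≤ (1 - w) / 2 * J := by
        rw [← mul_assoc]
        exact mul_le_mul_of_nonneg_right hη2 hJ0
      linarith)
    (by
      rw [hs, hu]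
      exact loss_num hφ0.le hε hμ0.le hσx hφ1 hμ1 hη1 b3)
    (fun i hi => by
      rw [hℓ]
      exact Nat.sub_le _ _)
    (fun i hi => by
      rw [hL]
      refine Nat.le_floor ?_
      have h1 := (hℓr i hi).2
      have h2 := mul_nonneg (hd2 i hi).le hJ0
      have h3 := mul_le_mul_of_nonneg_right (hdn i hi) hJ0
      linarith)
    (by
      have h3 := loss_zero hc1 hσc hsr (hℓr 0 (by omega)).1 (hd1 0 (by omega)) hφ2 b4'
      exact_mod_cast h3)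
    (fun i hi => by
      have h3 := loss_succ hc1 hσc hsr (hℓr (i + 1) hi).1 (hℓr i (by omega)).2
        (hd2 i (by omega)).le (hd1 (i + 1) hi) hφ2 hde0 (hd0 i (by omega)) hCc (hdes i hi) b4'
      exact_mod_cast h3)
  have hgg : ∀ l < n, g N l - ℓ l = ⌊(bb 0 l - de l) * J⌋₊ := by
    intro l hl
    have h2 := hx1 l hl
    rw [hℓ]
    show g N l - (g N l - ⌊(bb 0 l - de l) * J⌋₊) = ⌊(bb 0 l - de l) * J⌋₊
    omega
  rw [haN, hoN] at k3 k4
  refine ⟨B', _, _, fun ω h => hBA ω (k1 ω h), ?_,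
    (k3.mono le_rfl (fun _ => le_rfl) le_rfl ?_).cg hgg,
    (k4.mono le_rfl (fun _ => le_rfl) le_rfl ?_).cg fun l hl => hgg l (by omega)⟩
  · calc Pe F.p A ≤ K₁ * Pe F.p B := hPe
      _ ≤ K₁ * (2 * Pe F.p B') := mul_le_mul_of_nonneg_left k2 hK₁.le
      _ = _ := by ring
  · exact grad_num hc1 hσc hsr hLr hde0 (hd0 (n - 1) (by omega)) hCc he0 b4
  · exact grad_num hc1 hσc hsr hLr hde0 (hd0 (n - 1) (by omega)) hCc hep0 b4

end Pool.JPN
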